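import Pool.Agent.Q196.ProjGen

/-!
# The recipe for a projectional generator works exactly in reflexive spaces

Q2 asks whether choosing, for each `f` in the subspace `D` induced by a projectional skeleton
`(P s)`, an index `σ f` with `P (σ f) ^* f = f` and a countable dense subset `Φ f` of the range of
`P (σ f)` always gives a projectional generator `(D, Φ)`.  Among the Banach spaces with a uniformly
bounded projectional skeleton this holds exactly for the reflexive ones; in particular it fails for
`ℓ¹`.

In a nonreflexive space take `F` in the bidual and `b` in the dual with `F b ≠ 0` and `b` in the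
weak* closure of `A = D ∩ ker F`, and enlarge the skeleton by the rank-one projections
`x ↦ a x • x_a`, `a ∈ A`, where `a x_a = 1` and `b x_a = 0`; then `b` is orthogonal to `Φ(A)`.
-/

namespace Pool.Agent.Results.MP_2163b8_an.RecipeIffReflexive

open Pool.Agent.Q196.ProjGen

universe u

theorem result (𝕜 : Type) [RCLike 𝕜] :
    (∀ (X : Type u) [NormedAddCommGroup X] [NormedSpace 𝕜 X] [CompleteSpace X],
      HasSkeleton 𝕜 X →
        (RecipeWorks 𝕜 X ↔ Function.Surjective (NormedSpace.inclusionInDoubleDual 𝕜 X))) ∧
    ∃ (X : Type) (_ : NormedAddCommGroup X) (_ : NormedSpace 𝕜 X) (_ : CompleteSpace X),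
      HasSkeleton 𝕜 X ∧ ¬ RecipeWorks 𝕜 X :=
  ⟨fun _ _ _ _ h => recipeWorks_iff h,
    ⟨L1 𝕜, inferInstance, inferInstance, inferInstance, l1_fails 𝕜⟩⟩

end Pool.Agent.Results.MP_2163b8_an.RecipeIffReflexive
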